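import Mathlib

/-!
# Laplace transform of psi(e^t) e^(-t) - 1

For Re z > 0 the Laplace transform of `psi(e^t) e^(-t) - 1` on `(0, oo)` equals
`g z = -(1 + zeta1'(z+1)/zeta1(z+1))/(z+1)`, where `zeta1(s) = (s-1) zeta(s)` is entire.
The function `g` is holomorphic on an open set containing the closed half plane `Re z >= 0`,
because the Riemann zeta function has no zeros on `Re s >= 1`.
-/

open MeasureTheory Set Filter Topology Asymptotics
open scoped Real

namespace Pool.Agent.PNT

/-- The function whose integral over `(0, oo)` has to converge. -/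
noncomputable def psiF (t : ℝ) : ℝ := Chebyshev.psi (Real.exp t) * Real.exp (-t) - 1

/-- The entire function `(s-1) zeta(s)` has no zeros on `Re s >= 1`. -/
theorem zeta1_ne_zero {s : ℂ} (hs : 1 ≤ s.re) : riemannZeta₁ s ≠ 0 := by
  by_cases h : s = 1
  · subst h
    simp
  · intro h0
    have h1 := riemannZeta_eq_inv_sub_mul h
    rw [h0, mul_zero] at h1
    exact riemannZeta_ne_zero_of_one_le_re hs h1

/-- The continuation. -/
noncomputable def gExt (z : ℂ) : ℂ :=
  -(1 + deriv riemannZeta₁ (z + 1) / riemannZeta₁ (z + 1)) / (z + 1)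

/-- The open set on which the continuation is holomorphic. -/
def uExt : Set ℂ := {z : ℂ | riemannZeta₁ (z + 1) ≠ 0} ∩ {z : ℂ | z + 1 ≠ 0}

theorem isOpen_uExt : IsOpen uExt := by
  refine IsOpen.inter ?_ ?_
  · exact isOpen_ne_fun (by
      exact differentiable_riemannZeta₁.continuous.comp (continuous_id.add continuous_const))
      continuous_const
  · exact isOpen_ne_fun (continuous_id.add continuous_const) continuous_const

theorem mem_uExt {z : ℂ} (hz : 0 ≤ z.re) : z ∈ uExt := by
  constructor
  · refine zeta1_ne_zero ?_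
    simp only [Complex.add_re, Complex.one_re]
    linarith
  · intro h
    have := congrArg Complex.re h
    simp only [Complex.add_re, Complex.one_re, Complex.zero_re] at this
    linarith

theorem differentiableOn_gExt : DifferentiableOn ℂ gExt uExt := by
  intro z hz
  refine DifferentiableAt.differentiableWithinAt ?_
  have h3 : DifferentiableAt ℂ (fun z : ℂ => z + 1) z := differentiableAt_id.add_const (1 : ℂ)
  have h1 : DifferentiableAt ℂ (fun z : ℂ => riemannZeta₁ (z + 1)) z :=
    DifferentiableAt.comp z (g := riemannZeta₁) (differentiable_riemannZeta₁ (z + 1)) h3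
  have h2 : DifferentiableAt ℂ (fun z : ℂ => deriv riemannZeta₁ (z + 1)) z :=
    DifferentiableAt.comp z (g := deriv riemannZeta₁)
      (differentiable_riemannZeta₁.deriv (z + 1)) h3
  exact (((differentiableAt_const 1).add (h2.div h1 hz.1)).neg).div h3 hz.2

/-- The L-series of the von Mangoldt function as an integral over `(1, oo)`. -/
theorem lseries_eq {s : ℂ} (hs : 1 < s.re) :
    LSeries (fun n => (ArithmeticFunction.vonMangoldt n : ℂ)) s =
      s * ∫ t in Set.Ioi (1 : ℝ), (Chebyshev.psi t : ℂ) * (t : ℂ) ^ (-(s + 1)) := by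
  have h := LSeries_eq_mul_integral_of_nonneg (fun n => ArithmeticFunction.vonMangoldt n)
    (r := 1) zero_le_one hs ?_ (fun n => ArithmeticFunction.vonMangoldt_nonneg)
  · rw [h]
    congr 1
    refine setIntegral_congr_fun measurableSet_Ioi fun t _ => ?_
    congr 1
    rw [Chebyshev.psi, Complex.ofReal_sum]
    rfl
  · refine IsBigO.of_bound (Real.log 4 + 4) (Eventually.of_forall fun n => ?_)
    have h1 : (∑ k ∈ Finset.Icc 1 n, ArithmeticFunction.vonMangoldt k) = Chebyshev.psi n := by
      rw [Chebyshev.psi, Nat.floor_natCast]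
      rfl
    rw [h1, Real.rpow_one, Real.norm_of_nonneg (Chebyshev.psi_nonneg _),
      Real.norm_of_nonneg (Nat.cast_nonneg n)]
    exact Chebyshev.psi_le_const_mul_self (Nat.cast_nonneg n)

/-- Change of variables `t = e^u`. -/
theorem integral_exp_subst {s : ℂ} :
    ∫ t in Set.Ioi (1 : ℝ), (Chebyshev.psi t : ℂ) * (t : ℂ) ^ (-(s + 1)) =
      ∫ u in Set.Ioi (0 : ℝ), ((Chebyshev.psi (Real.exp u) * Real.exp (-u) : ℝ) : ℂ) *
        Complex.exp (-(s - 1) * u) := by
  have him : Real.exp '' (Set.Ioi 0) = Set.Ioi (1 : ℝ) := by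
    ext x
    constructor
    · rintro ⟨y, hy, rfl⟩
      exact Real.one_lt_exp_iff.mpr hy
    · intro hx
      exact ⟨Real.log x, Real.log_pos hx, Real.exp_log (lt_trans one_pos hx)⟩
  rw [← him, integral_image_eq_integral_abs_deriv_smul measurableSet_Ioi
    (fun x _ => (Real.hasDerivAt_exp x).hasDerivWithinAt) (Real.exp_injective.injOn)]
  refine setIntegral_congr_fun measurableSet_Ioi fun u _ => ?_
  rw [abs_of_pos (Real.exp_pos u), Complex.real_smul, Complex.cpow_def_of_ne_zero
    (by exact_mod_cast (Real.exp_pos u).ne'), ← Complex.ofReal_log (Real.exp_pos u).le,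
    Real.log_exp]
  push_cast
  have e : Complex.exp (u * -(s + 1)) =
      Complex.exp (-u) * (Complex.exp (-u) * Complex.exp (-(s - 1) * u)) := by
    rw [← Complex.exp_add, ← Complex.exp_add]
    congr 1
    ring
  rw [e]
  have e2 : Complex.exp (u : ℂ) * Complex.exp (-(u : ℂ)) = 1 := by
    rw [← Complex.exp_add]
    simp
  calc Complex.exp (u : ℂ) * ((Chebyshev.psi (Real.exp u) : ℂ) *
        (Complex.exp (-u) * (Complex.exp (-u) * Complex.exp (-(s - 1) * u))))
      = (Complex.exp (u : ℂ) * Complex.exp (-(u : ℂ))) *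
        ((Chebyshev.psi (Real.exp u) : ℂ) * Complex.exp (-u) * Complex.exp (-(s - 1) * u)) := by
        ring
    _ = _ := by rw [e2, one_mul]

theorem measurable_psiExp :
    Measurable (fun t : ℝ => Chebyshev.psi (Real.exp t) * Real.exp (-t)) :=
  (Chebyshev.psi_mono.measurable.comp Real.measurable_exp).mul
    (Real.measurable_exp.comp measurable_neg)

theorem measurable_psiF : Measurable psiF := measurable_psiExp.sub_const 1

theorem psiExp_nonneg (t : ℝ) : 0 ≤ Chebyshev.psi (Real.exp t) * Real.exp (-t) :=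
  mul_nonneg (Chebyshev.psi_nonneg _) (Real.exp_pos _).le

theorem psiExp_le (t : ℝ) :
    Chebyshev.psi (Real.exp t) * Real.exp (-t) ≤ Real.log 4 + 4 := by
  have h := Chebyshev.psi_le_const_mul_self (Real.exp_pos t).le
  calc Chebyshev.psi (Real.exp t) * Real.exp (-t)
      ≤ ((Real.log 4 + 4) * Real.exp t) * Real.exp (-t) :=
        mul_le_mul_of_nonneg_right h (Real.exp_pos _).le
    _ = Real.log 4 + 4 := by
        rw [mul_assoc, ← Real.exp_add]
        simp

theorem abs_psiF_le (t : ℝ) : |psiF t| ≤ Real.log 4 + 4 := by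
  have h1 := psiExp_nonneg t
  have h2 := psiExp_le t
  have h3 : 0 ≤ Real.log 4 := Real.log_nonneg (by norm_num)
  rw [psiF, abs_le]
  constructor <;> linarith

theorem integrableOn_expm {z : ℂ} (hz : 0 < z.re) :
    IntegrableOn (fun u : ℝ => Complex.exp (-z * u)) (Set.Ioi 0) :=
  integrableOn_exp_mul_complex_Ioi (a := -z) (by simpa using hz) 0

theorem integrableOn_psiExp {z : ℂ} (hz : 0 < z.re) :
    IntegrableOn (fun u : ℝ => ((Chebyshev.psi (Real.exp u) * Real.exp (-u) : ℝ) : ℂ) *
        Complex.exp (-z * u)) (Set.Ioi 0) := by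
  refine (integrableOn_expm hz).bdd_mul (c := Real.log 4 + 4) ?_ ?_
  · exact (Complex.measurable_ofReal.comp measurable_psiExp).aestronglyMeasurable
  · refine Eventually.of_forall fun u => ?_
    rw [Complex.norm_real, Real.norm_of_nonneg (psiExp_nonneg u)]
    exact psiExp_le u

/-- The Laplace transform of `psiF` is `gExt` on the open right half plane. -/
theorem gExt_eq {z : ℂ} (hz : 0 < z.re) :
    gExt z = ∫ t in Set.Ioi (0:ℝ), (psiF t : ℂ) * Complex.exp (-z * t) := by
  have hs : 1 < (z + 1).re := by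
    simp only [Complex.add_re, Complex.one_re]
    linarith
  have hz0 : z ≠ 0 := by
    intro h
    rw [h, Complex.zero_re] at hz
    exact lt_irrefl _ hz
  have hz1 : z + 1 ≠ 0 := (mem_uExt hz.le).2
  have hz2 : z + 1 ≠ 1 := by
    intro h
    exact hz0 (by simpa using h)
  have hne : riemannZeta₁ (z + 1) ≠ 0 := (mem_uExt hz.le).1
  have hI : ∫ t in Set.Ioi (0:ℝ), (psiF t : ℂ) * Complex.exp (-z * t) =
      (∫ u in Set.Ioi (0 : ℝ), ((Chebyshev.psi (Real.exp u) * Real.exp (-u) : ℝ) : ℂ) *
        Complex.exp (-z * u)) - ∫ u in Set.Ioi (0:ℝ), Complex.exp (-z * u) := by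
    rw [← integral_sub (integrableOn_psiExp hz) (integrableOn_expm hz)]
    refine integral_congr_ae (Eventually.of_forall fun u => ?_)
    simp only [psiF]
    push_cast
    ring
  have h1 : ∫ u in Set.Ioi (0:ℝ), Complex.exp (-z * u) = 1 / z := by
    have := integral_exp_mul_complex_Ioi (a := -z) (by simpa using hz) 0
    rw [this]
    simp
  have h2 : (∫ u in Set.Ioi (0 : ℝ), ((Chebyshev.psi (Real.exp u) * Real.exp (-u) : ℝ) : ℂ) *
        Complex.exp (-z * u)) =
      (- deriv riemannZeta (z + 1) / riemannZeta (z + 1)) / (z + 1) := by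
    have h3 := lseries_eq hs
    rw [integral_exp_subst] at h3
    have h4 := ArithmeticFunction.LSeries_vonMangoldt_eq_deriv_riemannZeta_div hs
    rw [eq_div_iff hz1, ← h4, h3, add_sub_cancel_right]
    ring
  rw [hI, h1, h2, gExt, deriv_riemannZeta_eq_neg_inv_sub_sq_mul_add hz2,
    riemannZeta_eq_inv_sub_mul hz2, add_sub_cancel_right]
  field_simp
  ring

/-- Summary in the shape used by the analytic theorem of Newman. -/
theorem psi_laplace : ∃ (U : Set ℂ) (g : ℂ → ℂ), IsOpen U ∧ (∀ z : ℂ, 0 ≤ z.re → z ∈ U) ∧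
    DifferentiableOn ℂ g U ∧ (∀ z : ℂ, 0 < z.re → g z = ∫ t in Set.Ioi (0:ℝ),
      ((Chebyshev.psi (Real.exp t) * Real.exp (-t) - 1 : ℝ) : ℂ) * Complex.exp (-z * t)) :=
  ⟨uExt, gExt, isOpen_uExt, fun _ hz => mem_uExt hz, differentiableOn_gExt,
    fun _ hz => gExt_eq hz⟩

/-- Measurability of the function in `psi_laplace`. -/
theorem psi_measurable :
    Measurable (fun t : ℝ => Chebyshev.psi (Real.exp t) * Real.exp (-t) - 1) :=
  measurable_psiF

/-- The function in `psi_laplace` is bounded. -/
theorem psi_bounded (t : ℝ) :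
    |Chebyshev.psi (Real.exp t) * Real.exp (-t) - 1| ≤ Real.log 4 + 4 :=
  abs_psiF_le t

end Pool.Agent.PNT
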