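import Pool.Agent.PNT.Newman
import Pool.Agent.PNT.Psi

/-!
# The prime number theorem for `psi` and `theta`
-/

open MeasureTheory Set Filter Topology Asymptotics
open scoped Real Interval

namespace Pool.Agent.PNT

/-- Integral of the comparison function. -/
theorem integral_cmp (T lam a b : ℝ) :
    ∫ t in a..b, (lam * Real.exp (T - t) - 1) =
      (-lam * Real.exp (T - b) - b) - (-lam * Real.exp (T - a) - a) := by
  refine intervalIntegral.integral_eq_sub_of_hasDerivAt (f := fun t => -lam * Real.exp (T - t) - t)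
    (fun t _ => ?_) ?_
  · have h1 : HasDerivAt (fun t : ℝ => T - t) (-1) t := by
      simpa using (hasDerivAt_id t).const_sub T
    have h2 := ((h1.exp).const_mul (-lam)).sub (hasDerivAt_id t)
    refine h2.congr_deriv ?_
    ring
  · refine Continuous.intervalIntegrable ?_ _ _
    fun_prop

/-- Tauberian step: if `h` is monotone and `∫_0^T (h(t) e^(-t) - 1) dt` converges then
`h(t) e^(-t) → 1`. -/
theorem tauber {h : ℝ → ℝ} (hm : Monotone h) {L : ℝ}
    (hc : Tendsto (fun T : ℝ => ∫ t in (0:ℝ)..T, (h t * Real.exp (-t) - 1)) atTop (𝓝 L)) :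
    Tendsto (fun t => h t * Real.exp (-t)) atTop (𝓝 1) := by
  have hi : ∀ a b : ℝ, IntervalIntegrable (fun t => h t * Real.exp (-t) - 1) volume a b := by
    intro a b
    have h1 : IntervalIntegrable h volume a b := hm.intervalIntegrable
    have h2 : IntervalIntegrable (fun t => h t * Real.exp (-t)) volume a b :=
      h1.mul_continuousOn (by fun_prop)
    exact h2.sub intervalIntegrable_const
  have hci : ∀ T lam a b : ℝ,
      IntervalIntegrable (fun t => lam * Real.exp (T - t) - 1) volume a b := by
    intro T lam a b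
    refine Continuous.intervalIntegrable ?_ _ _
    fun_prop
  have hcauchy : ∀ ε : ℝ, 0 < ε → ∃ T₀ : ℝ, ∀ a b : ℝ, T₀ ≤ a → T₀ ≤ b →
      |∫ t in a..b, (h t * Real.exp (-t) - 1)| < ε := by
    intro ε hε
    rw [Metric.tendsto_atTop] at hc
    obtain ⟨T₀, hT₀⟩ := hc (ε / 2) (half_pos hε)
    refine ⟨T₀, fun a b ha hb => ?_⟩
    have h1 := hT₀ a ha
    have h2 := hT₀ b hb
    rw [Real.dist_eq] at h1 h2
    rw [← intervalIntegral.integral_interval_sub_left (hi 0 b) (hi 0 a)]
    have h3 := abs_sub_le (∫ t in (0:ℝ)..b, (h t * Real.exp (-t) - 1)) L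
      (∫ t in (0:ℝ)..a, (h t * Real.exp (-t) - 1))
    rw [abs_sub_comm L] at h3
    linarith
  rw [tendsto_order]
  constructor
  · intro c hc1
    set lam : ℝ := max c (1 / 2) with hlam
    have hl0 : 0 < lam := lt_of_lt_of_le (by norm_num) (le_max_right _ _)
    have hl1 : lam < 1 := max_lt hc1 (by norm_num)
    have hlog : Real.log lam < 0 := Real.log_neg hl0 hl1
    have hε : 0 < lam - 1 - Real.log lam := by
      have := Real.log_lt_sub_one_of_pos hl0 hl1.ne
      linarith
    obtain ⟨T₀, hT₀⟩ := hcauchy _ hε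
    filter_upwards [eventually_ge_atTop (T₀ - Real.log lam)] with T hT
    refine lt_of_le_of_lt (le_max_left c (1 / 2)) ?_
    rw [← hlam]
    by_contra hcon
    rw [not_lt] at hcon
    have hT1 : h T ≤ lam * Real.exp T := by
      have := mul_le_mul_of_nonneg_right hcon (Real.exp_pos T).le
      rwa [mul_assoc, ← Real.exp_add, neg_add_cancel, Real.exp_zero, mul_one] at this
    have h1 := hT₀ (T + Real.log lam) T (by linarith) (by linarith)
    have h2 : ∫ t in (T + Real.log lam)..T, (h t * Real.exp (-t) - 1) ≤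
        ∫ t in (T + Real.log lam)..T, (lam * Real.exp (T - t) - 1) := by
      refine intervalIntegral.integral_mono_on (by linarith) (hi _ _) (hci _ _ _ _)
        fun t ht => ?_
      have h3 : h t ≤ lam * Real.exp T := (hm ht.2).trans hT1
      have h4 := mul_le_mul_of_nonneg_right h3 (Real.exp_pos (-t)).le
      rw [mul_assoc, ← Real.exp_add, ← sub_eq_add_neg] at h4
      linarith
    rw [integral_cmp] at h2
    have e1 : lam * Real.exp (T - (T + Real.log lam)) = 1 := by
      rw [show T - (T + Real.log lam) = -Real.log lam by ring, Real.exp_neg,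
        Real.exp_log hl0, mul_inv_cancel₀ hl0.ne']
    rw [sub_self, Real.exp_zero] at h2
    have h5 := (abs_lt.mp h1).1
    nlinarith
  · intro lam hl1
    have hl0 : 0 < lam := lt_trans one_pos hl1
    have hlog : 0 < Real.log lam := Real.log_pos hl1
    have hε : 0 < lam - 1 - Real.log lam := by
      have := Real.log_lt_sub_one_of_pos hl0 hl1.ne'
      linarith
    obtain ⟨T₀, hT₀⟩ := hcauchy _ hε
    filter_upwards [eventually_ge_atTop T₀] with T hT
    by_contra hcon
    rw [not_lt] at hcon
    have hT1 : lam * Real.exp T ≤ h T := by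
      have := mul_le_mul_of_nonneg_right hcon (Real.exp_pos T).le
      rwa [mul_assoc, ← Real.exp_add, neg_add_cancel, Real.exp_zero, mul_one] at this
    have h1 := hT₀ T (T + Real.log lam) hT (by linarith)
    have h2 : ∫ t in T..(T + Real.log lam), (lam * Real.exp (T - t) - 1) ≤
        ∫ t in T..(T + Real.log lam), (h t * Real.exp (-t) - 1) := by
      refine intervalIntegral.integral_mono_on (by linarith) (hci _ _ _ _) (hi _ _)
        fun t ht => ?_
      have h3 : lam * Real.exp T ≤ h t := hT1.trans (hm ht.1)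
      have h4 := mul_le_mul_of_nonneg_right h3 (Real.exp_pos (-t)).le
      rw [mul_assoc, ← Real.exp_add, ← sub_eq_add_neg] at h4
      linarith
    rw [integral_cmp] at h2
    have e1 : lam * Real.exp (T - (T + Real.log lam)) = 1 := by
      rw [show T - (T + Real.log lam) = -Real.log lam by ring, Real.exp_neg,
        Real.exp_log hl0, mul_inv_cancel₀ hl0.ne']
    rw [sub_self, Real.exp_zero] at h2
    have h5 := (abs_lt.mp h1).2
    nlinarith

/-- Prime number theorem for `psi`, exponential variable. -/
theorem psi_exp_asymp :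
    Tendsto (fun t : ℝ => Chebyshev.psi (Real.exp t) * Real.exp (-t)) atTop (𝓝 1) := by
  obtain ⟨U, g, hU, hU0, hg, hgf⟩ := psi_laplace
  have h := newman (fun t : ℝ => Chebyshev.psi (Real.exp t) * Real.exp (-t) - 1)
    psi_measurable (Real.log 4 + 4) psi_bounded U hU hU0 g hg hgf
  exact tauber (h := fun t => Chebyshev.psi (Real.exp t))
    (fun a b hab => Chebyshev.psi_mono (Real.exp_le_exp.mpr hab)) h

/-- **Prime number theorem** for Chebyshev's function `psi`. -/
theorem psi_asymp : Tendsto (fun x : ℝ => Chebyshev.psi x / x) atTop (𝓝 1) := by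
  have h := psi_exp_asymp.comp Real.tendsto_log_atTop
  refine h.congr' ?_
  filter_upwards [eventually_gt_atTop (0:ℝ)] with x hx
  rw [Function.comp_apply, Real.exp_neg, Real.exp_log hx, div_eq_mul_inv]

/-- **Prime number theorem** for Chebyshev's function `theta`. -/
theorem theta_asymp : Tendsto (fun x : ℝ => Chebyshev.theta x / x) atTop (𝓝 1) := by
  obtain ⟨C, hC⟩ := Chebyshev.psi_sub_theta_le_mul_sqrt
  have h0 : Tendsto (fun x : ℝ => (Chebyshev.psi x - Chebyshev.theta x) / x) atTop (𝓝 0) := by
    have h1 : Tendsto (fun x : ℝ => C * (√x)⁻¹) atTop (𝓝 0) := by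
      simpa using (tendsto_inv_atTop_zero.comp Real.tendsto_sqrt_atTop).const_mul C
    refine tendsto_of_tendsto_of_tendsto_of_le_of_le' tendsto_const_nhds h1 ?_ ?_
    · filter_upwards [eventually_gt_atTop (0:ℝ)] with x hx
      exact div_nonneg (sub_nonneg.mpr (Chebyshev.theta_le_psi x)) hx.le
    · filter_upwards [eventually_gt_atTop (0:ℝ)] with x hx
      rw [div_le_iff₀ hx]
      refine (hC x).trans (le_of_eq ?_)
      have hs : √x ≠ 0 := (Real.sqrt_pos.mpr hx).ne'
      have hxx : x = √x * √x := (Real.mul_self_sqrt hx.le).symm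
      calc C * √x = C * ((√x)⁻¹ * √x) * √x := by rw [inv_mul_cancel₀ hs, mul_one]
        _ = C * (√x)⁻¹ * (√x * √x) := by ring
        _ = C * (√x)⁻¹ * x := by rw [← hxx]
  have h2 := psi_asymp.sub h0
  rw [sub_zero] at h2
  refine h2.congr fun x => ?_
  ring

end Pool.Agent.PNT
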