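import Mathlib

/-!
Contour part of Newman's analytic theorem: rectangles, Cauchy formula with a pole at `0`,
bounds for the kernel `exp (z T) (1 + z^2 / R^2) / z`, decay of the integrals over the part
of the contour in the open left half plane.
-/

open MeasureTheory Set Filter Topology Complex
open scoped Interval

namespace Pool.Agent.PNT

/-- lower or upper horizontal side at height `s` -/
noncomputable def hor (F : ℂ → ℂ) (s a b : ℝ) : ℂ := ∫ x in a..b, F ((x : ℂ) + (s : ℂ) * I)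

/-- vertical side at abscissa `s` -/
noncomputable def ver (F : ℂ → ℂ) (R s : ℝ) : ℂ := ∫ y in (-R)..R, F ((s : ℂ) + (y : ℂ) * I)

/-- boundary integral of `F` over the rectangle `[a,b] × [-R,R]` -/
noncomputable def bd (F : ℂ → ℂ) (a b R : ℝ) : ℂ :=
  hor F (-R) a b - hor F R a b + I * ver F R b - I * ver F R a

lemma bd_eq_zero {F : ℂ → ℂ} {a b R : ℝ}
    (H : DifferentiableOn ℂ F ([[a, b]] ×ℂ [[-R, R]])) : bd F a b R = 0 := by
  have h := Complex.integral_boundary_rect_eq_zero_of_differentiableOn F ⟨a, -R⟩ ⟨b, R⟩ H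
  simpa [bd, hor, ver, smul_eq_mul] using h

lemma hor_ne_zero {x s : ℝ} (hs : s ≠ 0) : ((x : ℂ) + (s : ℂ) * I) ≠ 0 := by
  intro h
  have := congrArg Complex.im h
  simp at this
  exact hs this

lemma ver_ne_zero {s y : ℝ} (hs : s ≠ 0) : ((s : ℂ) + (y : ℂ) * I) ≠ 0 := by
  intro h
  have := congrArg Complex.re h
  simp at this
  exact hs this

lemma continuousOn_hor {F : ℂ → ℂ} {S : Set ℂ} (hF : ContinuousOn F S) {s a b : ℝ}
    (h : ∀ x ∈ [[a, b]], ((x : ℂ) + (s : ℂ) * I) ∈ S) :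
    ContinuousOn (fun x : ℝ => F ((x : ℂ) + (s : ℂ) * I)) [[a, b]] :=
  hF.comp (by fun_prop) h

lemma continuousOn_ver {F : ℂ → ℂ} {S : Set ℂ} (hF : ContinuousOn F S) {s a b : ℝ}
    (h : ∀ y ∈ [[a, b]], ((s : ℂ) + (y : ℂ) * I) ∈ S) :
    ContinuousOn (fun y : ℝ => F ((s : ℂ) + (y : ℂ) * I)) [[a, b]] :=
  hF.comp (by fun_prop) h

/-- Cauchy formula on a rectangle with `0` in the interior -/
lemma cauchy_rect {K : ℂ → ℂ} {a b R : ℝ} (ha : a < 0) (hb : 0 < b) (hR : 0 < R) {U : Set ℂ}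
    (hU : IsOpen U) (hsub : ([[a, b]] ×ℂ [[-R, R]]) ⊆ U) (hK : DifferentiableOn ℂ K U) :
    bd (fun z => K z / z) a b R = K 0 * bd (fun z => z⁻¹) a b R := by
  have hab : [[a, b]] = Icc a b := uIcc_of_le (by linarith)
  have hRR : [[-R, R]] = Icc (-R) R := uIcc_of_le (by linarith)
  have h0 : (0 : ℂ) ∈ U := hsub (by
    rw [hab, hRR, mem_reProdIm]; simp; exact ⟨⟨ha.le, hb.le⟩, hR.le⟩)
  have hD : DifferentiableOn ℂ (dslope K 0) U :=
    (Complex.differentiableOn_dslope (hU.mem_nhds h0)).2 hK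
  have hzero := bd_eq_zero (hD.mono hsub)
  have hval : ∀ z : ℂ, z ≠ 0 → dslope K 0 z = K z / z - K 0 * z⁻¹ := by
    intro z hz
    rw [dslope_of_ne _ hz, slope_def_field, sub_zero, sub_div]
    ring
  have hcK : ContinuousOn K U := hK.continuousOn
  -- horizontal sides
  have hh : ∀ s : ℝ, s ≠ 0 → s ∈ Icc (-R) R →
      hor (dslope K 0) s a b = hor (fun z => K z / z) s a b - K 0 * hor (fun z => z⁻¹) s a b := by
    intro s hs hs'
    have hm : ∀ x ∈ [[a, b]], ((x : ℂ) + (s : ℂ) * I) ∈ U := fun x hx => hsub (by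
      rw [mem_reProdIm]; simp [hRR]; exact ⟨hx, hs'⟩)
    have c1 : ContinuousOn (fun x : ℝ => K ((x : ℂ) + (s : ℂ) * I) / ((x : ℂ) + (s : ℂ) * I))
        [[a, b]] :=
      (continuousOn_hor hcK hm).div (by fun_prop) (fun x _ => hor_ne_zero hs)
    have c2 : ContinuousOn (fun x : ℝ => ((x : ℂ) + (s : ℂ) * I)⁻¹) [[a, b]] :=
      ContinuousOn.inv₀ (by fun_prop) (fun x _ => hor_ne_zero hs)
    unfold hor
    rw [← intervalIntegral.integral_const_mul, ← intervalIntegral.integral_sub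
      c1.intervalIntegrable (c2.intervalIntegrable.const_mul _)]
    exact intervalIntegral.integral_congr (fun x _ => hval _ (hor_ne_zero hs))
  have hv : ∀ s : ℝ, s ≠ 0 → s ∈ Icc a b →
      ver (dslope K 0) R s = ver (fun z => K z / z) R s - K 0 * ver (fun z => z⁻¹) R s := by
    intro s hs hs'
    have hm : ∀ y ∈ [[-R, R]], ((s : ℂ) + (y : ℂ) * I) ∈ U := fun y hy => hsub (by
      rw [mem_reProdIm]; simp [hab]; exact ⟨hs', hy⟩)
    have c1 : ContinuousOn (fun y : ℝ => K ((s : ℂ) + (y : ℂ) * I) / ((s : ℂ) + (y : ℂ) * I))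
        [[-R, R]] :=
      (continuousOn_ver hcK hm).div (by fun_prop) (fun x _ => ver_ne_zero hs)
    have c2 : ContinuousOn (fun y : ℝ => ((s : ℂ) + (y : ℂ) * I)⁻¹) [[-R, R]] :=
      ContinuousOn.inv₀ (by fun_prop) (fun x _ => ver_ne_zero hs)
    unfold ver
    rw [← intervalIntegral.integral_const_mul, ← intervalIntegral.integral_sub
      c1.intervalIntegrable (c2.intervalIntegrable.const_mul _)]
    exact intervalIntegral.integral_congr (fun x _ => hval _ (ver_ne_zero hs))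
  unfold bd at hzero ⊢
  rw [hh (-R) (neg_ne_zero.2 hR.ne') ⟨le_rfl, by linarith⟩,
    hh R hR.ne' ⟨by linarith, le_rfl⟩, hv b hb.ne' ⟨by linarith, le_rfl⟩,
    hv a ha.ne ⟨le_rfl, by linarith⟩] at hzero
  linear_combination hzero

lemma intervalIntegral_im {f : ℝ → ℂ} {a b : ℝ} (hf : IntervalIntegrable f volume a b) :
    (∫ x in a..b, f x).im = ∫ x in a..b, (f x).im :=
  (Complex.imCLM.intervalIntegral_comp_comm hf).symm

lemma intervalIntegral_re {f : ℝ → ℂ} {a b : ℝ} (hf : IntervalIntegrable f volume a b) :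
    (∫ x in a..b, f x).re = ∫ x in a..b, (f x).re :=
  (Complex.reCLM.intervalIntegral_comp_comm hf).symm

lemma inv_hor_im (x s : ℝ) : (((x : ℂ) + (s : ℂ) * I)⁻¹).im = -s / (x ^ 2 + s ^ 2) := by
  rw [Complex.inv_im]
  simp [Complex.normSq_apply]
  ring_nf

lemma inv_ver_re (s y : ℝ) : (((s : ℂ) + (y : ℂ) * I)⁻¹).re = s / (s ^ 2 + y ^ 2) := by
  rw [Complex.inv_re]
  simp [Complex.normSq_apply]
  ring_nf

/-- the boundary integral of `1/z` is bounded below -/
lemma one_le_im_bd {a b R : ℝ} (ha : a < 0) (hb : 0 < b) (hbR : b = R) :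
    1 ≤ (bd (fun z => z⁻¹) a b R).im := by
  have hR : 0 < R := hbR ▸ hb
  have c2 : ∀ s : ℝ, s ≠ 0 → IntervalIntegrable (fun x : ℝ => ((x : ℂ) + (s : ℂ) * I)⁻¹)
      volume a b := fun s hs =>
    (ContinuousOn.inv₀ (by fun_prop) (fun x _ => hor_ne_zero hs)).intervalIntegrable
  have c3 : ∀ s : ℝ, s ≠ 0 → IntervalIntegrable (fun y : ℝ => ((s : ℂ) + (y : ℂ) * I)⁻¹)
      volume (-R) R := fun s hs =>
    (ContinuousOn.inv₀ (by fun_prop) (fun x _ => ver_ne_zero hs)).intervalIntegrable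
  have e1 : (hor (fun z => z⁻¹) (-R) a b).im = ∫ x in a..b, R / (x ^ 2 + R ^ 2) := by
    unfold hor
    rw [intervalIntegral_im (c2 _ (neg_ne_zero.2 hR.ne'))]
    refine intervalIntegral.integral_congr (fun x _ => ?_)
    rw [inv_hor_im]
    simp
  have e2 : (hor (fun z => z⁻¹) R a b).im = -∫ x in a..b, R / (x ^ 2 + R ^ 2) := by
    unfold hor
    rw [intervalIntegral_im (c2 _ hR.ne'), ← intervalIntegral.integral_neg]
    refine intervalIntegral.integral_congr (fun x _ => ?_)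
    rw [inv_hor_im]
    ring
  have e3 : ∀ s : ℝ, s ≠ 0 → (ver (fun z => z⁻¹) R s).re = ∫ y in (-R)..R, s / (s ^ 2 + y ^ 2) := by
    intro s hs
    unfold ver
    rw [intervalIntegral_re (c3 _ hs)]
    refine intervalIntegral.integral_congr (fun x _ => ?_)
    rw [inv_ver_re]
  have p1 : 0 ≤ ∫ x in a..b, R / (x ^ 2 + R ^ 2) :=
    intervalIntegral.integral_nonneg (by linarith) (fun x _ => by positivity)
  have p2 : ∫ y in (-R)..R, a / (a ^ 2 + y ^ 2) ≤ 0 := by
    have : 0 ≤ ∫ y in (-R)..R, -(a / (a ^ 2 + y ^ 2)) := by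
      refine intervalIntegral.integral_nonneg (by linarith) (fun x _ => ?_)
      rw [← neg_div]
      exact div_nonneg (by linarith) (by positivity)
    rw [intervalIntegral.integral_neg] at this
    linarith
  have p3 : 1 ≤ ∫ y in (-R)..R, b / (b ^ 2 + y ^ 2) := by
    have h1 : ∫ y in (-R)..R, (1 / (2 * R)) = 1 := by
      rw [intervalIntegral.integral_const, smul_eq_mul]
      field_simp
      ring
    rw [← h1]
    refine intervalIntegral.integral_mono_on (by linarith) (by simp) ?_ (fun y hy => ?_)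
    · refine ContinuousOn.intervalIntegrable (ContinuousOn.div (by fun_prop) (by fun_prop)
        (fun y _ => ?_))
      positivity
    · subst hbR
      have hy2 : y ^ 2 ≤ b ^ 2 := by nlinarith [hy.1, hy.2]
      rw [div_le_div_iff₀ (by positivity) (by positivity)]
      nlinarith
  unfold bd
  simp only [Complex.sub_im, Complex.add_im, Complex.mul_im, Complex.I_re, Complex.I_im, zero_mul,
    one_mul, zero_add]
  rw [e1, e2, e3 b hb.ne', e3 a ha.ne]
  linarith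

/-! ### the kernel -/

/-- Newman's kernel -/
noncomputable def ker (R T : ℝ) (z : ℂ) : ℂ :=
  Complex.exp (z * T) * (1 + z ^ 2 / (R : ℂ) ^ 2) / z

lemma norm_exp_mul (z : ℂ) (T : ℝ) : ‖Complex.exp (z * T)‖ = Real.exp (z.re * T) := by
  rw [Complex.norm_exp]
  simp

lemma w_hor {x s R : ℝ} (hR : 0 < R) (hs : s ^ 2 = R ^ 2) (hx : |x| ≤ R) :
    ‖(1 : ℂ) + ((x : ℂ) + (s : ℂ) * I) ^ 2 / (R : ℂ) ^ 2‖ ≤ 3 * |x| / R := by
  have hR' : (R : ℂ) ≠ 0 := by exact_mod_cast hR.ne'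
  have hs' : (s : ℂ) ^ 2 = (R : ℂ) ^ 2 := by exact_mod_cast hs
  have e : (1 : ℂ) + ((x : ℂ) + (s : ℂ) * I) ^ 2 / (R : ℂ) ^ 2 =
      (x : ℂ) * ((x : ℂ) + 2 * (s : ℂ) * I) / (R : ℂ) ^ 2 := by
    field_simp
    ring_nf
    rw [I_sq]
    linear_combination (-1 : ℂ) * hs'
  have hsR : |s| = R := by
    rw [← abs_of_pos hR]
    exact (sq_eq_sq_iff_abs_eq_abs _ _).1 hs
  have h1 : ‖(x : ℂ) + 2 * (s : ℂ) * I‖ ≤ 3 * R := by
    refine (norm_add_le _ _).trans ?_
    simp only [norm_mul, Complex.norm_real, Real.norm_eq_abs, Complex.norm_I, mul_one]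
    rw [hsR]
    norm_num
    linarith
  rw [e, norm_div, norm_mul, norm_pow, Complex.norm_real, Complex.norm_real, Real.norm_eq_abs,
    Real.norm_eq_abs, abs_of_pos hR, div_le_div_iff₀ (by positivity) hR]
  have := mul_le_mul_of_nonneg_left h1 (abs_nonneg x)
  nlinarith [mul_le_mul_of_nonneg_right this hR.le]

lemma w_ver {s y R : ℝ} (hR : 0 < R) (hs : |s| ≤ R) (hy : |y| ≤ R) :
    ‖(1 : ℂ) + ((s : ℂ) + (y : ℂ) * I) ^ 2 / (R : ℂ) ^ 2‖ ≤ 3 := by
  refine (norm_add_le _ _).trans ?_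
  rw [norm_one, norm_div, norm_pow, norm_pow, Complex.norm_real, Real.norm_eq_abs, abs_of_pos hR]
  have h1 : ‖(s : ℂ) + (y : ℂ) * I‖ ^ 2 = s ^ 2 + y ^ 2 := by
    rw [← Complex.normSq_eq_norm_sq, Complex.normSq_add_mul_I]
  have h2 : s ^ 2 ≤ R ^ 2 := by rw [← sq_abs s]; gcongr
  have h3 : y ^ 2 ≤ R ^ 2 := by rw [← sq_abs y]; gcongr
  rw [h1]
  have : (s ^ 2 + y ^ 2) / R ^ 2 ≤ 2 := by
    rw [div_le_iff₀ (by positivity)]
    linarith
  linarith

lemma le_norm_hor {x s R : ℝ} (hR : 0 < R) (hs : s ^ 2 = R ^ 2) :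
    R ≤ ‖(x : ℂ) + (s : ℂ) * I‖ := by
  have hsR : |s| = R := by
    rw [← abs_of_pos hR]
    exact (sq_eq_sq_iff_abs_eq_abs _ _).1 hs
  have := Complex.abs_im_le_norm ((x : ℂ) + (s : ℂ) * I)
  simpa [hsR] using this

lemma le_norm_ver (s y : ℝ) : |s| ≤ ‖(s : ℂ) + (y : ℂ) * I‖ := by
  have := Complex.abs_re_le_norm ((s : ℂ) + (y : ℂ) * I)
  simpa using this

/-- bound for `F * ker` on the horizontal sides -/
lemma ker_hor {F : ℂ → ℂ} {B R T x s : ℝ} (hR : 0 < R) (hB : 0 ≤ B) (hs : s ^ 2 = R ^ 2)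
    (hx : |x| ≤ R) (hF : x ≠ 0 → ‖F ((x : ℂ) + (s : ℂ) * I)‖ ≤ B * Real.exp (-x * T) / |x|) :
    ‖F ((x : ℂ) + (s : ℂ) * I) * ker R T ((x : ℂ) + (s : ℂ) * I)‖ ≤ 3 * B / R ^ 2 := by
  unfold ker
  rw [norm_mul, norm_div, norm_mul, norm_exp_mul]
  have hz := le_norm_hor (x := x) hR hs
  have hw := w_hor hR hs hx
  have hre : ((x : ℂ) + (s : ℂ) * I).re = x := by simp
  rw [hre]
  rcases eq_or_ne x 0 with h0 | h0
  · have : ‖(1 : ℂ) + ((x : ℂ) + (s : ℂ) * I) ^ 2 / (R : ℂ) ^ 2‖ = 0 := by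
      apply le_antisymm _ (norm_nonneg _)
      have hx' : |x| = 0 := by rw [h0, abs_zero]
      rw [hx', mul_zero, zero_div] at hw
      exact hw
    rw [this]
    simp
    positivity
  · have hx0 : 0 < |x| := abs_pos.2 h0
    have h1 : Real.exp (x * T) * ‖(1 : ℂ) + ((x : ℂ) + (s : ℂ) * I) ^ 2 / (R : ℂ) ^ 2‖ /
        ‖(x : ℂ) + (s : ℂ) * I‖ ≤ Real.exp (x * T) * (3 * |x| / R) / R := by
      gcongr
    refine (mul_le_mul (hF h0) h1 (by positivity) (by positivity)).trans (le_of_eq ?_)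
    have he : Real.exp (-x * T) * Real.exp (x * T) = 1 := by
      rw [← Real.exp_add]
      simp
    generalize Real.exp (-x * T) = e1 at he ⊢
    generalize Real.exp (x * T) = e2 at he ⊢
    have : B * e1 / |x| * (e2 * (3 * |x| / R) / R) = (e1 * e2) * (3 * B / R ^ 2) := by
      field_simp
    rw [this, he, one_mul]

/-- bound for `F * ker` on the vertical sides `x = ± R` -/
lemma ker_ver {F : ℂ → ℂ} {B R T s y : ℝ} (hR : 0 < R) (hB : 0 ≤ B) (hs : |s| = R)
    (hy : |y| ≤ R) (hF : ‖F ((s : ℂ) + (y : ℂ) * I)‖ ≤ B * Real.exp (-s * T) / |s|) :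
    ‖F ((s : ℂ) + (y : ℂ) * I) * ker R T ((s : ℂ) + (y : ℂ) * I)‖ ≤ 3 * B / R ^ 2 := by
  unfold ker
  rw [norm_mul, norm_div, norm_mul, norm_exp_mul]
  have hz := le_norm_ver s y
  rw [hs] at hz
  have hw := w_ver hR hs.le hy
  have hre : ((s : ℂ) + (y : ℂ) * I).re = s := by simp
  rw [hre]
  rw [hs] at hF
  have h1 : Real.exp (s * T) * ‖(1 : ℂ) + ((s : ℂ) + (y : ℂ) * I) ^ 2 / (R : ℂ) ^ 2‖ /
      ‖(s : ℂ) + (y : ℂ) * I‖ ≤ Real.exp (s * T) * 3 / R := by
    gcongr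
  refine (mul_le_mul hF h1 (by positivity) (by positivity)).trans (le_of_eq ?_)
  have he : Real.exp (-s * T) * Real.exp (s * T) = 1 := by
    rw [← Real.exp_add]
    simp
  generalize Real.exp (-s * T) = e1 at he ⊢
  generalize Real.exp (s * T) = e2 at he ⊢
  have : B * e1 / R * (e2 * 3 / R) = (e1 * e2) * (3 * B / R ^ 2) := by
    field_simp
  rw [this, he, one_mul]

/-- decay of integrals in the open left half plane -/
lemma tendsto_decay {a b : ℝ} {φ ζ : ℝ → ℂ} (hφ : ContinuousOn φ [[a, b]]) (hζ : Continuous ζ)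
    (h0 : ∀ᵐ t : ℝ, t ∈ Ι a b → (ζ t).re < 0) :
    Tendsto (fun T : ℝ => ∫ t in a..b, φ t * Complex.exp (ζ t * T)) atTop (𝓝 0) := by
  have key := intervalIntegral.tendsto_integral_filter_of_dominated_convergence
    (μ := volume) (a := a) (b := b) (l := (atTop : Filter ℝ))
    (F := fun (T : ℝ) (t : ℝ) => φ t * Complex.exp (ζ t * T)) (f := fun _ => (0 : ℂ))
    (fun t => ‖φ t‖) ?_ ?_ ?_ ?_
  · simpa using key
  · refine Eventually.of_forall (fun T => ?_)
    refine ContinuousOn.aestronglyMeasurable ?_ measurableSet_uIoc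
    exact (hφ.mono uIoc_subset_uIcc).mul (by fun_prop)
  · filter_upwards [eventually_ge_atTop (0 : ℝ)] with T hT
    filter_upwards [h0] with t ht ht'
    rw [norm_mul, norm_exp_mul]
    have : Real.exp ((ζ t).re * T) ≤ 1 := by
      rw [Real.exp_le_one_iff]
      exact mul_nonpos_of_nonpos_of_nonneg (ht ht').le hT
    nlinarith [norm_nonneg (φ t)]
  · exact hφ.norm.intervalIntegrable
  · filter_upwards [h0] with t ht ht'
    have h1 := ht ht'
    rw [tendsto_zero_iff_norm_tendsto_zero]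
    have h2 : Tendsto (fun T : ℝ => ‖φ t‖ * Real.exp ((ζ t).re * T)) atTop (𝓝 (‖φ t‖ * 0)) := by
      refine Tendsto.const_mul _ ?_
      exact Real.tendsto_exp_atBot.comp (tendsto_id.const_mul_atTop_of_neg h1)
    rw [mul_zero] at h2
    refine h2.congr (fun T => ?_)
    rw [norm_mul, norm_exp_mul]

end Pool.Agent.PNT
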