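import Mathlib
import Pool.Agent.PNT.NewmanB

/-!
Newman's analytic theorem, abstract form: `g` holomorphic on a neighbourhood of the closed right
half plane, `k T` entire functions with the two size bounds; then `k T 0` tends to `g 0`.
-/

open MeasureTheory Set Filter Topology Complex
open scoped Interval

namespace Pool.Agent.PNT

lemma ker_continuousOn (R T : ℝ) : ContinuousOn (ker R T) {z : ℂ | z ≠ 0} := by
  unfold ker
  exact ContinuousOn.div (by fun_prop) (by fun_prop) (fun z hz => hz)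

lemma int_hor {F : ℂ → ℂ} {S : Set ℂ} (hF : ContinuousOn F S) {s a b : ℝ} (R T : ℝ) (hs : s ≠ 0)
    (h : ∀ x ∈ [[a, b]], ((x : ℂ) + (s : ℂ) * I) ∈ S) :
    IntervalIntegrable (fun x : ℝ => F ((x : ℂ) + (s : ℂ) * I) * ker R T ((x : ℂ) + (s : ℂ) * I))
      volume a b :=
  ((continuousOn_hor hF h).mul (continuousOn_hor (ker_continuousOn R T)
    (fun _ _ => hor_ne_zero hs))).intervalIntegrable

lemma int_ver {F : ℂ → ℂ} {S : Set ℂ} (hF : ContinuousOn F S) {s a b : ℝ} (R T : ℝ) (hs : s ≠ 0)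
    (h : ∀ y ∈ [[a, b]], ((s : ℂ) + (y : ℂ) * I) ∈ S) :
    IntervalIntegrable (fun y : ℝ => F ((s : ℂ) + (y : ℂ) * I) * ker R T ((s : ℂ) + (y : ℂ) * I))
      volume a b :=
  ((continuousOn_ver hF h).mul (continuousOn_ver (ker_continuousOn R T)
    (fun _ _ => ver_ne_zero hs))).intervalIntegrable

/-- the contour identity -/
lemma main_identity {g k : ℂ → ℂ} {U : Set ℂ} (hU : IsOpen U) (hg : DifferentiableOn ℂ g U)
    (hk : Differentiable ℂ k) {δ R T : ℝ} (hδ : 0 < δ) (hδR : δ ≤ R)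
    (hsub : ([[-δ, R]] ×ℂ [[-R, R]]) ⊆ U) :
    (g 0 - k 0) * bd (fun z => z⁻¹) (-δ) R R =
      (hor (fun z => (g z - k z) * ker R T z) (-R) 0 R - hor (fun z => (g z - k z) * ker R T z) R 0 R
        + I * ver (fun z => (g z - k z) * ker R T z) R R)
      + (hor (fun z => g z * ker R T z) (-R) (-δ) 0 - hor (fun z => g z * ker R T z) R (-δ) 0
        - I * ver (fun z => g z * ker R T z) R (-δ))
      - (hor (fun z => k z * ker R T z) (-R) (-R) 0 - hor (fun z => k z * ker R T z) R (-R) 0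
        - I * ver (fun z => k z * ker R T z) R (-R)) := by
  have hR : 0 < R := by linarith
  have hab : [[-δ, R]] = Icc (-δ) R := uIcc_of_le (by linarith)
  have hRR : [[-R, R]] = Icc (-R) R := uIcc_of_le (by linarith)
  have hcg : ContinuousOn g U := hg.continuousOn
  have hck : ContinuousOn k univ := hk.continuous.continuousOn
  have hcgk : ContinuousOn (fun z => g z - k z) U := hcg.sub (hck.mono (subset_univ _))
  -- Cauchy
  have hK : DifferentiableOn ℂ (fun z => (g z - k z) * (Complex.exp (z * T) *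
      (1 + z ^ 2 / (R : ℂ) ^ 2))) U := by
    refine (hg.sub hk.differentiableOn).mul ?_
    fun_prop
  have hC := cauchy_rect (K := fun z => (g z - k z) * (Complex.exp (z * T) *
      (1 + z ^ 2 / (R : ℂ) ^ 2))) (neg_lt_zero.2 hδ) hR hR hU hsub hK
  have hfun : (fun z => (g z - k z) * (Complex.exp (z * T) * (1 + z ^ 2 / (R : ℂ) ^ 2)) / z) =
      fun z => (g z - k z) * ker R T z := by
    funext z
    unfold ker
    ring
  rw [hfun] at hC
  simp only [zero_mul, Complex.exp_zero, ne_eq, OfNat.ofNat_ne_zero, not_false_eq_true, zero_pow,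
    zero_div, add_zero, mul_one] at hC
  rw [← hC]
  -- membership facts
  have hm : ∀ s : ℝ, s ∈ Icc (-R) R → ∀ x : ℝ, x ∈ Icc (-δ) R → ((x : ℂ) + (s : ℂ) * I) ∈ U := by
    intro s hs x hx
    apply hsub
    rw [mem_reProdIm, hab, hRR]
    simp
    exact ⟨hx, hs⟩
  -- splitting
  have hs1 : ∀ s : ℝ, s ≠ 0 → s ∈ Icc (-R) R →
      hor (fun z => (g z - k z) * ker R T z) s (-δ) R =
        hor (fun z => g z * ker R T z) s (-δ) 0 - hor (fun z => k z * ker R T z) s (-δ) 0 +
        hor (fun z => (g z - k z) * ker R T z) s 0 R := by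
    intro s hs hs'
    unfold hor
    have i1 := int_hor hcgk R T hs (a := -δ) (b := 0) (fun x hx => hm s hs' x (by
      rw [uIcc_of_le (by linarith)] at hx
      exact ⟨hx.1, hx.2.trans hR.le⟩))
    have i2 := int_hor hcgk R T hs (a := 0) (b := R) (fun x hx => hm s hs' x (by
      rw [uIcc_of_le (by linarith)] at hx
      exact ⟨by linarith [hx.1], hx.2⟩))
    have i3 := int_hor hcg R T hs (a := -δ) (b := 0) (fun x hx => hm s hs' x (by
      rw [uIcc_of_le (by linarith)] at hx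
      exact ⟨hx.1, hx.2.trans hR.le⟩))
    have i4 := int_hor hck R T hs (a := -δ) (b := 0) (fun x _ => mem_univ _)
    rw [← intervalIntegral.integral_add_adjacent_intervals i1 i2,
      ← intervalIntegral.integral_sub i3 i4]
    congr 1
    refine intervalIntegral.integral_congr (fun x _ => ?_)
    ring
  have hs2 : ver (fun z => (g z - k z) * ker R T z) R (-δ) =
      ver (fun z => g z * ker R T z) R (-δ) - ver (fun z => k z * ker R T z) R (-δ) := by
    unfold ver
    have i3 := int_ver hcg R T (neg_ne_zero.2 hδ.ne') (a := -R) (b := R) (fun y hy =>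
      hm y (by rwa [hRR] at hy) (-δ) ⟨le_rfl, by linarith⟩)
    have i4 := int_ver hck R T (neg_ne_zero.2 hδ.ne') (a := -R) (b := R) (fun x _ => mem_univ _)
    rw [← intervalIntegral.integral_sub i3 i4]
    refine intervalIntegral.integral_congr (fun x _ => ?_)
    ring
  have hs3 : ∀ s : ℝ, s ≠ 0 →
      hor (fun z => k z * ker R T z) s (-R) 0 =
        hor (fun z => k z * ker R T z) s (-R) (-δ) + hor (fun z => k z * ker R T z) s (-δ) 0 := by
    intro s hs
    unfold hor
    rw [intervalIntegral.integral_add_adjacent_intervals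
      (int_hor hck R T hs (fun x _ => mem_univ _)) (int_hor hck R T hs (fun x _ => mem_univ _))]
  have hz : bd (fun z => k z * ker R T z) (-R) (-δ) R = 0 := by
    apply bd_eq_zero
    intro z hz
    have hz0 : z ≠ 0 := by
      intro h
      rw [h, mem_reProdIm, uIcc_of_le (by linarith)] at hz
      have := hz.1.2
      simp at this
      linarith
    unfold ker
    refine DifferentiableAt.differentiableWithinAt ?_
    refine (hk z).mul (DifferentiableAt.div (by fun_prop) differentiableAt_id hz0)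
  unfold bd at hz ⊢
  rw [hs1 (-R) (neg_ne_zero.2 hR.ne') ⟨le_rfl, by linarith⟩, hs1 R hR.ne' ⟨by linarith, le_rfl⟩,
    hs2, hs3 (-R) (neg_ne_zero.2 hR.ne'), hs3 R hR.ne']
  linear_combination hz

/-- the right part of the contour -/
lemma right_bound {F : ℂ → ℂ} {B R T : ℝ} (hR : 0 < R) (hB : 0 ≤ B)
    (hF : ∀ z : ℂ, 0 < z.re → ‖F z‖ ≤ B * Real.exp (-z.re * T) / z.re) :
    ‖hor (fun z => F z * ker R T z) (-R) 0 R - hor (fun z => F z * ker R T z) R 0 R
        + I * ver (fun z => F z * ker R T z) R R‖ ≤ 12 * B / R := by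
  have hh : ∀ s : ℝ, s ^ 2 = R ^ 2 → ‖hor (fun z => F z * ker R T z) s 0 R‖ ≤ 3 * B / R := by
    intro s hs
    have h1 := intervalIntegral.norm_integral_le_of_norm_le_const (a := 0) (b := R)
      (f := fun x : ℝ => F ((x : ℂ) + (s : ℂ) * I) * ker R T ((x : ℂ) + (s : ℂ) * I))
      (C := 3 * B / R ^ 2) (fun x hx => by
        rw [uIoc_of_le hR.le] at hx
        refine ker_hor hR hB hs (abs_le.2 ⟨by linarith [hx.1], hx.2⟩) (fun _ => ?_)
        have h2 := hF ((x : ℂ) + (s : ℂ) * I) (by simpa using hx.1)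
        simpa [abs_of_pos hx.1] using h2)
    refine h1.trans (le_of_eq ?_)
    rw [sub_zero, abs_of_pos hR]
    field_simp
  have hv : ‖ver (fun z => F z * ker R T z) R R‖ ≤ 6 * B / R := by
    have h1 := intervalIntegral.norm_integral_le_of_norm_le_const (a := -R) (b := R)
      (f := fun y : ℝ => F ((R : ℂ) + (y : ℂ) * I) * ker R T ((R : ℂ) + (y : ℂ) * I))
      (C := 3 * B / R ^ 2) (fun y hy => by
        rw [uIoc_of_le (by linarith)] at hy
        refine ker_ver hR hB (abs_of_pos hR) (abs_le.2 ⟨hy.1.le, hy.2⟩) ?_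
        have h2 := hF ((R : ℂ) + (y : ℂ) * I) (by simpa using hR)
        simpa [abs_of_pos hR] using h2)
    refine h1.trans (le_of_eq ?_)
    rw [sub_neg_eq_add, abs_of_pos (by linarith : (0 : ℝ) < R + R)]
    field_simp
    ring
  have h1 := hh (-R) (by ring)
  have h2 := hh R rfl
  refine (norm_add_le _ _).trans ?_
  have h3 := norm_sub_le (hor (fun z => F z * ker R T z) (-R) 0 R)
    (hor (fun z => F z * ker R T z) R 0 R)
  rw [norm_mul, Complex.norm_I, one_mul]
  have : 12 * B / R = 3 * B / R + 3 * B / R + 6 * B / R := by ring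
  linarith

/-- the left part of the contour -/
lemma left_bound {F : ℂ → ℂ} {B R T : ℝ} (hR : 0 < R) (hB : 0 ≤ B)
    (hF : ∀ z : ℂ, z.re < 0 → ‖F z‖ ≤ B * Real.exp (-z.re * T) / (-z.re)) :
    ‖hor (fun z => F z * ker R T z) (-R) (-R) 0 - hor (fun z => F z * ker R T z) R (-R) 0
        - I * ver (fun z => F z * ker R T z) R (-R)‖ ≤ 12 * B / R := by
  have hh : ∀ s : ℝ, s ^ 2 = R ^ 2 → ‖hor (fun z => F z * ker R T z) s (-R) 0‖ ≤ 3 * B / R := by
    intro s hs
    have h1 := intervalIntegral.norm_integral_le_of_norm_le_const (a := -R) (b := 0)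
      (f := fun x : ℝ => F ((x : ℂ) + (s : ℂ) * I) * ker R T ((x : ℂ) + (s : ℂ) * I))
      (C := 3 * B / R ^ 2) (fun x hx => by
        rw [uIoc_of_le (by linarith)] at hx
        refine ker_hor hR hB hs (abs_le.2 ⟨hx.1.le, by linarith [hx.2]⟩) (fun h0 => ?_)
        have hx0 : x < 0 := lt_of_le_of_ne hx.2 h0
        have h2 := hF ((x : ℂ) + (s : ℂ) * I) (by simpa using hx0)
        simpa [abs_of_neg hx0] using h2)
    refine h1.trans (le_of_eq ?_)
    rw [sub_neg_eq_add, zero_add, abs_of_pos hR]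
    field_simp
  have hv : ‖ver (fun z => F z * ker R T z) R (-R)‖ ≤ 6 * B / R := by
    have hRn : (-R) < 0 := by linarith
    have h1 := intervalIntegral.norm_integral_le_of_norm_le_const (a := -R) (b := R)
      (f := fun y : ℝ => F (((-R : ℝ) : ℂ) + (y : ℂ) * I) * ker R T (((-R : ℝ) : ℂ) + (y : ℂ) * I))
      (C := 3 * B / R ^ 2) (fun y hy => by
        rw [uIoc_of_le (by linarith)] at hy
        refine ker_ver hR hB (by rw [abs_neg, abs_of_pos hR]) (abs_le.2 ⟨hy.1.le, hy.2⟩) ?_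
        have h2 := hF (((-R : ℝ) : ℂ) + (y : ℂ) * I) (by simpa using hR)
        simpa [abs_of_neg hRn, abs_of_pos hR] using h2)
    refine h1.trans (le_of_eq ?_)
    rw [sub_neg_eq_add, abs_of_pos (by linarith : (0 : ℝ) < R + R)]
    field_simp
    ring
  have h1 := hh (-R) (by ring)
  have h2 := hh R rfl
  refine (norm_sub_le _ _).trans ?_
  have h3 := norm_sub_le (hor (fun z => F z * ker R T z) (-R) (-R) 0)
    (hor (fun z => F z * ker R T z) R (-R) 0)
  rw [norm_mul, Complex.norm_I, one_mul]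
  have : 12 * B / R = 3 * B / R + 3 * B / R + 6 * B / R := by ring
  linarith

lemma exists_delta {U : Set ℂ} (hU : IsOpen U) (hU0 : ∀ z : ℂ, 0 ≤ z.re → z ∈ U) {R : ℝ}
    (hR : 0 < R) : ∃ δ : ℝ, 0 < δ ∧ δ ≤ R ∧ ([[-δ, R]] ×ℂ [[-R, R]]) ⊆ U := by
  have hc : IsCompact (({0} : Set ℝ) ×ℂ [[-R, R]]) := isCompact_singleton.reProdIm isCompact_uIcc
  obtain ⟨δ, hδ, hsub⟩ := hc.exists_thickening_subset_open hU (fun z hz => by
    rw [mem_reProdIm] at hz
    exact hU0 z (by rw [mem_singleton_iff.1 hz.1]))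
  refine ⟨min (δ / 2) R, by positivity, min_le_right _ _, fun z hz => ?_⟩
  have hδ' : min (δ / 2) R ≤ δ / 2 := min_le_left _ _
  have hpos : 0 < min (δ / 2) R := by positivity
  rw [mem_reProdIm, uIcc_of_le (by linarith)] at hz
  rcases le_or_gt 0 z.re with h | h
  · exact hU0 z h
  · apply hsub
    rw [Metric.mem_thickening_iff]
    refine ⟨⟨0, z.im⟩, ?_, ?_⟩
    · rw [mem_reProdIm]
      exact ⟨rfl, hz.2⟩
    · have hd : dist z (⟨0, z.im⟩ : ℂ) = -z.re := by
        rw [Complex.dist_of_im_eq (z := z) (w := ⟨0, z.im⟩) rfl, Real.dist_eq]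
        simp only [sub_zero]
        exact abs_of_neg h
      have := hz.1.1
      rw [hd]
      linarith

/-- the part of the contour in the open left half plane, for `g` -/
lemma tendsto_left {g : ℂ → ℂ} {U : Set ℂ} (hg : ContinuousOn g U) {δ R : ℝ} (hδ : 0 < δ)
    (hδR : δ ≤ R) (hsub : ([[-δ, R]] ×ℂ [[-R, R]]) ⊆ U) :
    Tendsto (fun T : ℝ => hor (fun z => g z * ker R T z) (-R) (-δ) 0 -
      hor (fun z => g z * ker R T z) R (-δ) 0 - I * ver (fun z => g z * ker R T z) R (-δ))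
      atTop (𝓝 0) := by
  have hR : 0 < R := by linarith
  have hab : [[-δ, R]] = Icc (-δ) R := uIcc_of_le (by linarith)
  have hRR : [[-R, R]] = Icc (-R) R := uIcc_of_le (by linarith)
  have hm : ∀ s : ℝ, s ∈ Icc (-R) R → ∀ x : ℝ, x ∈ Icc (-δ) R → ((x : ℂ) + (s : ℂ) * I) ∈ U := by
    intro s hs x hx
    apply hsub
    rw [mem_reProdIm, hab, hRR]
    simp
    exact ⟨hx, hs⟩
  have hw : ContinuousOn (fun z : ℂ => (1 + z ^ 2 / (R : ℂ) ^ 2) / z) {z : ℂ | z ≠ 0} :=
    ContinuousOn.div (by fun_prop) (by fun_prop) (fun z hz => hz)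
  have hh : ∀ s : ℝ, s ≠ 0 → s ∈ Icc (-R) R →
      Tendsto (fun T : ℝ => hor (fun z => g z * ker R T z) s (-δ) 0) atTop (𝓝 0) := by
    intro s hs hs'
    have hc : ContinuousOn (fun x : ℝ => g ((x : ℂ) + (s : ℂ) * I) *
        ((1 + ((x : ℂ) + (s : ℂ) * I) ^ 2 / (R : ℂ) ^ 2) / ((x : ℂ) + (s : ℂ) * I))) [[-δ, 0]] :=
      (continuousOn_hor hg (fun x hx => hm s hs' x (by
        rw [uIcc_of_le (by linarith)] at hx
        exact ⟨hx.1, hx.2.trans hR.le⟩))).mul (continuousOn_hor hw (fun _ _ => hor_ne_zero hs))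
    have h0 : ∀ᵐ t : ℝ, t ∈ Ι (-δ) 0 → ((t : ℂ) + (s : ℂ) * I).re < 0 := by
      have hne : ∀ᵐ t : ℝ, t ≠ 0 := by
        rw [ae_iff]
        simp
      filter_upwards [hne] with t ht ht'
      rw [uIoc_of_le (by linarith)] at ht'
      simpa using lt_of_le_of_ne ht'.2 ht
    refine (tendsto_decay hc (ζ := fun x : ℝ => (x : ℂ) + (s : ℂ) * I) (by fun_prop) h0).congr
      (fun T => ?_)
    unfold hor ker
    refine intervalIntegral.integral_congr (fun x _ => ?_)
    ring
  have hv : Tendsto (fun T : ℝ => ver (fun z => g z * ker R T z) R (-δ)) atTop (𝓝 0) := by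
    have hs : (-δ) ≠ 0 := neg_ne_zero.2 hδ.ne'
    have hc : ContinuousOn (fun y : ℝ => g (((-δ : ℝ) : ℂ) + (y : ℂ) * I) *
        ((1 + (((-δ : ℝ) : ℂ) + (y : ℂ) * I) ^ 2 / (R : ℂ) ^ 2) / (((-δ : ℝ) : ℂ) + (y : ℂ) * I)))
        [[-R, R]] :=
      (continuousOn_ver hg (fun y hy => hm y (by rwa [hRR] at hy) (-δ) ⟨le_rfl, by linarith⟩)).mul
        (continuousOn_ver hw (fun _ _ => ver_ne_zero hs))
    have h0 : ∀ᵐ t : ℝ, t ∈ Ι (-R) R → (((-δ : ℝ) : ℂ) + (t : ℂ) * I).re < 0 := by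
      refine Eventually.of_forall (fun t _ => ?_)
      simpa using hδ
    refine (tendsto_decay hc (ζ := fun y : ℝ => ((-δ : ℝ) : ℂ) + (y : ℂ) * I) (by fun_prop)
      h0).congr (fun T => ?_)
    unfold ver ker
    refine intervalIntegral.integral_congr (fun x _ => ?_)
    ring
  have := ((hh (-R) (neg_ne_zero.2 hR.ne') ⟨le_rfl, by linarith⟩).sub
    (hh R hR.ne' ⟨by linarith, le_rfl⟩)).sub (hv.const_mul I)
  simpa using this

/-- **Newman's analytic theorem**, abstract form -/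
theorem newman_abstract {g : ℂ → ℂ} {k : ℝ → ℂ → ℂ} {U : Set ℂ} (hU : IsOpen U)
    (hU0 : ∀ z : ℂ, 0 ≤ z.re → z ∈ U) (hg : DifferentiableOn ℂ g U)
    (hk : ∀ T, Differentiable ℂ (k T)) {B : ℝ} (hB : 0 ≤ B)
    (hright : ∀ T : ℝ, 0 ≤ T → ∀ z : ℂ, 0 < z.re →
      ‖g z - k T z‖ ≤ B * Real.exp (-z.re * T) / z.re)
    (hleft : ∀ T : ℝ, 0 ≤ T → ∀ z : ℂ, z.re < 0 →
      ‖k T z‖ ≤ B * Real.exp (-z.re * T) / (-z.re)) :
    Tendsto (fun T : ℝ => k T 0) atTop (𝓝 (g 0)) := by
  rw [Metric.tendsto_atTop]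
  intro ε hε
  set R : ℝ := 48 * B / ε + 1 with hRdef
  have hR : 0 < R := by positivity
  obtain ⟨δ, hδ, hδR, hsub⟩ := exists_delta hU hU0 hR
  have hlim := tendsto_left hg.continuousOn hδ hδR hsub
  rw [Metric.tendsto_atTop] at hlim
  obtain ⟨T0, hT0⟩ := hlim (ε / 2) (by positivity)
  refine ⟨max T0 0, fun T hT => ?_⟩
  have hT1 : T0 ≤ T := (le_max_left _ _).trans hT
  have hT2 : 0 ≤ T := (le_max_right _ _).trans hT
  have h1 := hT0 T hT1
  rw [dist_zero_right] at h1
  have hid := main_identity (T := T) hU hg (hk T) hδ hδR hsub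
  have hr := right_bound (F := fun z => g z - k T z) (T := T) hR hB (hright T hT2)
  have hl := left_bound (F := k T) (T := T) hR hB (hleft T hT2)
  have hc : 1 ≤ ‖bd (fun z => z⁻¹) (-δ) R R‖ :=
    (one_le_im_bd (neg_lt_zero.2 hδ) hR rfl).trans
      ((le_abs_self _).trans (Complex.abs_im_le_norm _))
  have h2 : ‖g 0 - k T 0‖ ≤ ‖(g 0 - k T 0) * bd (fun z => z⁻¹) (-δ) R R‖ := by
    rw [norm_mul]
    nlinarith [norm_nonneg (g 0 - k T 0)]
  rw [hid] at h2
  have h3 := norm_sub_le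
    ((hor (fun z => (g z - k T z) * ker R T z) (-R) 0 R -
        hor (fun z => (g z - k T z) * ker R T z) R 0 R
        + I * ver (fun z => (g z - k T z) * ker R T z) R R)
      + (hor (fun z => g z * ker R T z) (-R) (-δ) 0 - hor (fun z => g z * ker R T z) R (-δ) 0
        - I * ver (fun z => g z * ker R T z) R (-δ)))
    (hor (fun z => k T z * ker R T z) (-R) (-R) 0 - hor (fun z => k T z * ker R T z) R (-R) 0
        - I * ver (fun z => k T z * ker R T z) R (-R))
  have h4 := norm_add_le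
    (hor (fun z => (g z - k T z) * ker R T z) (-R) 0 R -
        hor (fun z => (g z - k T z) * ker R T z) R 0 R
        + I * ver (fun z => (g z - k T z) * ker R T z) R R)
    (hor (fun z => g z * ker R T z) (-R) (-δ) 0 - hor (fun z => g z * ker R T z) R (-δ) 0
        - I * ver (fun z => g z * ker R T z) R (-δ))
  have h5 : 24 * B / R ≤ ε / 2 := by
    rw [div_le_iff₀ hR, hRdef]
    have : ε / 2 * (48 * B / ε + 1) = 24 * B + ε / 2 := by
      field_simp
      ring
    rw [this]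
    linarith
  have h6 : 12 * B / R + 12 * B / R = 24 * B / R := by ring
  rw [dist_eq_norm, norm_sub_rev]
  linarith

end Pool.Agent.PNT
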