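import Pool.Agent.PNT.NewmanA
import Pool.Agent.PNT.NewmanC

/-!
# Newman's analytic theorem
-/

namespace Pool.Agent.PNT

open MeasureTheory Filter Topology Set

/-- **Newman's analytic theorem**: if `f` is bounded and measurable and its Laplace transform
extends to a holomorphic function on a neighbourhood of the closed right half plane, then
`∫_0^∞ f` converges (to the value of the extension at `0`). -/
theorem newman (f : ℝ → ℝ) (hf : Measurable f) (B : ℝ) (hB : ∀ t, |f t| ≤ B)
    (U : Set ℂ) (hU : IsOpen U) (hU0 : ∀ z : ℂ, 0 ≤ z.re → z ∈ U)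
    (g : ℂ → ℂ) (hg : DifferentiableOn ℂ g U)
    (hgf : ∀ z : ℂ, 0 < z.re → g z = ∫ t in Set.Ioi (0:ℝ), (f t : ℂ) * Complex.exp (-z * t)) :
    Filter.Tendsto (fun T : ℝ => ∫ t in (0:ℝ)..T, f t) Filter.atTop (nhds (g 0).re) := by
  have hB0 : 0 ≤ B := (abs_nonneg _).trans (hB 0)
  have key : Tendsto (fun T : ℝ => gT f T 0) atTop (𝓝 (g 0)) := by
    refine newman_abstract (k := gT f) hU hU0 hg (gT_differentiable hf hB) hB0 ?_ ?_
    · intro T _ z hz
      rw [hgf z hz]
      exact tail_bound hf hB hz
    · intro T hT z hz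
      exact gT_bound hB hT hz
  have h2 := (Complex.continuous_re.tendsto (g 0)).comp key
  refine h2.congr fun T => ?_
  rw [Function.comp_apply, gT_zero, Complex.ofReal_re]

end Pool.Agent.PNT
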