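import Mathlib

/-!
# Newman's analytic theorem: the truncated Laplace transform
-/

namespace Pool.Agent.PNT

open MeasureTheory Filter Topology Set

/-- the Laplace transform of `f` truncated at `T` -/
noncomputable def gT (f : ℝ → ℝ) (T : ℝ) (z : ℂ) : ℂ :=
  ∫ t in (0:ℝ)..T, (f t : ℂ) * Complex.exp (-z * t)

lemma norm_integrand {f : ℝ → ℝ} {B : ℝ} (hB : ∀ t, |f t| ≤ B) (z : ℂ) (t : ℝ) :
    ‖(f t : ℂ) * Complex.exp (-z * t)‖ ≤ B * Real.exp (-z.re * t) := by
  rw [norm_mul, Complex.norm_real, Complex.norm_exp, Real.norm_eq_abs]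
  have : (-z * (t : ℂ)).re = -z.re * t := by simp
  rw [this]
  exact mul_le_mul_of_nonneg_right (hB t) (Real.exp_nonneg _)

lemma measurable_integrand {f : ℝ → ℝ} (hf : Measurable f) (z : ℂ) :
    Measurable fun t : ℝ => (f t : ℂ) * Complex.exp (-z * t) := by
  refine (Complex.measurable_ofReal.comp hf).mul ?_
  fun_prop

lemma intervalIntegrable_integrand {f : ℝ → ℝ} (hf : Measurable f) {B : ℝ}
    (hB : ∀ t, |f t| ≤ B) (z : ℂ) (a b : ℝ) :
    IntervalIntegrable (fun t : ℝ => (f t : ℂ) * Complex.exp (-z * t)) volume a b := by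
  have h : IntervalIntegrable (fun t : ℝ => B * Real.exp (-z.re * t)) volume a b :=
    (by fun_prop : Continuous fun t : ℝ => B * Real.exp (-z.re * t)).intervalIntegrable _ _
  exact h.mono_fun' (measurable_integrand hf z).aestronglyMeasurable
    (Eventually.of_forall fun t => norm_integrand hB z t)

theorem gT_differentiable {f : ℝ → ℝ} (hf : Measurable f) {B : ℝ} (hB : ∀ t, |f t| ≤ B)
    (T : ℝ) : Differentiable ℂ (gT f T) := by
  intro z₀
  have hB0 : 0 ≤ B := (abs_nonneg _).trans (hB 0)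
  have key := intervalIntegral.hasDerivAt_integral_of_dominated_loc_of_deriv_le
    (μ := volume) (a := 0) (b := T)
    (F := fun (z : ℂ) (t : ℝ) => (f t : ℂ) * Complex.exp (-z * t))
    (F' := fun (z : ℂ) (t : ℝ) => (f t : ℂ) * (Complex.exp (-z * t) * (-(t : ℂ))))
    (x₀ := z₀) (s := Metric.ball z₀ 1)
    (bound := fun _ => B * (Real.exp ((‖z₀‖ + 1) * |T|) * |T|))
    (Metric.ball_mem_nhds _ one_pos)
    (Eventually.of_forall fun z => (measurable_integrand hf z).aestronglyMeasurable)
    (intervalIntegrable_integrand hf hB z₀ 0 T)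
    ?_ ?_ (by simp) ?_
  · exact key.2.differentiableAt
  · refine Measurable.aestronglyMeasurable ?_
    refine (Complex.measurable_ofReal.comp hf).mul ?_
    fun_prop
  · refine Eventually.of_forall fun t ht z hz => ?_
    have htT : |t| ≤ |T| := by
      rcases le_total 0 T with h | h
      · rw [uIoc_of_le h] at ht
        rw [abs_of_nonneg ht.1.le, abs_of_nonneg h]
        exact ht.2
      · rw [uIoc_of_ge h] at ht
        rw [abs_of_nonpos ht.2, abs_of_nonpos h]
        linarith [ht.1]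
    have hzn : ‖z‖ ≤ ‖z₀‖ + 1 := by
      have h1 : ‖z - z₀‖ < 1 := by
        rw [Metric.mem_ball, dist_eq_norm] at hz
        exact hz
      have h2 := norm_add_le (z - z₀) z₀
      rw [sub_add_cancel] at h2
      linarith
    rw [norm_mul, norm_mul, Complex.norm_real, Complex.norm_exp, norm_neg, Complex.norm_real,
      Real.norm_eq_abs, Real.norm_eq_abs]
    refine mul_le_mul (hB t) (mul_le_mul (Real.exp_le_exp.2 ?_) htT (abs_nonneg _)
      (Real.exp_nonneg _)) (by positivity) hB0
    calc (-z * (t : ℂ)).re ≤ ‖-z * (t : ℂ)‖ := Complex.re_le_norm _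
      _ = ‖z‖ * |t| := by rw [norm_mul, norm_neg, Complex.norm_real, Real.norm_eq_abs]
      _ ≤ (‖z₀‖ + 1) * |T| := by gcongr
  · refine Eventually.of_forall fun t _ z _ => ?_
    refine HasDerivAt.const_mul _ ?_
    have h1 : HasDerivAt (fun z : ℂ => -z * (t : ℂ)) (-(t : ℂ)) z := by
      simpa using (hasDerivAt_id z).neg.mul_const (t : ℂ)
    exact h1.cexp

theorem gT_bound {f : ℝ → ℝ} {B : ℝ} (hB : ∀ t, |f t| ≤ B)
    {T : ℝ} (hT : 0 ≤ T) {z : ℂ} (hz : z.re < 0) :
    ‖gT f T z‖ ≤ B * Real.exp (-z.re * T) / (-z.re) := by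
  have hB0 : 0 ≤ B := (abs_nonneg _).trans (hB 0)
  have h1 : ‖gT f T z‖ ≤ ∫ t in (0:ℝ)..T, B * Real.exp (-z.re * t) :=
    intervalIntegral.norm_integral_le_of_norm_le hT
      (Eventually.of_forall fun t _ => norm_integrand hB z t)
      ((by fun_prop : Continuous fun t : ℝ => B * Real.exp (-z.re * t)).intervalIntegrable _ _)
  refine h1.trans ?_
  have hpos : 0 < -z.re := by linarith
  have h2 : ∀ x : ℝ, HasDerivAt (fun t : ℝ => B * Real.exp (-z.re * t) / (-z.re))
      (B * Real.exp (-z.re * x)) x := by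
    intro x
    have h3 : HasDerivAt (fun t : ℝ => -z.re * t) (-z.re) x := by
      simpa using (hasDerivAt_id x).const_mul (-z.re)
    have h4 := (h3.exp.const_mul B).div_const (-z.re)
    have h5 : B * (Real.exp (-z.re * x) * -z.re) / -z.re = B * Real.exp (-z.re * x) := by
      rw [← mul_assoc, mul_div_assoc, div_self hpos.ne', mul_one]
    rw [h5] at h4
    exact h4
  rw [intervalIntegral.integral_eq_sub_of_hasDerivAt (fun x _ => h2 x)
    ((by fun_prop : Continuous fun t : ℝ => B * Real.exp (-z.re * t)).intervalIntegrable _ _)]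
  have : 0 ≤ B * Real.exp (-z.re * 0) / (-z.re) := by positivity
  linarith

theorem tail_bound {f : ℝ → ℝ} (hf : Measurable f) {B : ℝ} (hB : ∀ t, |f t| ≤ B)
    {T : ℝ} {z : ℂ} (hz : 0 < z.re) :
    ‖(∫ t in Ioi (0:ℝ), (f t : ℂ) * Complex.exp (-z * t)) - gT f T z‖
      ≤ B * Real.exp (-z.re * T) / z.re := by
  have hB0 : 0 ≤ B := (abs_nonneg _).trans (hB 0)
  have hexp : ∀ c : ℝ, IntegrableOn (fun t : ℝ => B * Real.exp (-z.re * t)) (Ioi c) := fun c =>
    (integrableOn_exp_mul_Ioi (neg_lt_zero.2 hz) c).const_mul B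
  have hint : ∀ c : ℝ, IntegrableOn (fun t : ℝ => (f t : ℂ) * Complex.exp (-z * t)) (Ioi c) :=
    fun c => (hexp c).mono' (measurable_integrand hf z).aestronglyMeasurable
      (Eventually.of_forall fun t => norm_integrand hB z t)
  have h1 : (∫ t in Ioi (0:ℝ), (f t : ℂ) * Complex.exp (-z * t)) - gT f T z
      = ∫ t in Ioi T, (f t : ℂ) * Complex.exp (-z * t) := by
    have := intervalIntegral.integral_Ioi_sub_Ioi' (hint 0) (hint T)
    unfold gT
    rw [← this]
    ring
  rw [h1]
  refine (norm_integral_le_of_norm_le (hexp T)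
    (Eventually.of_forall fun t => norm_integrand hB z t)).trans ?_
  rw [integral_const_mul, integral_exp_mul_Ioi (neg_lt_zero.2 hz)]
  apply le_of_eq
  rw [neg_div_neg_eq, mul_div_assoc]

theorem gT_zero (f : ℝ → ℝ) (T : ℝ) : gT f T 0 = ((∫ t in (0:ℝ)..T, f t : ℝ) : ℂ) := by
  unfold gT
  rw [← intervalIntegral.integral_ofReal]
  refine intervalIntegral.integral_congr fun t _ => ?_
  simp

end Pool.Agent.PNT
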